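import Mathlib
import Pool.Agent.H855.GD.Main

/-!
# The conjecture of Gross and Deligne for all the products `X^r × Y^s`, where `X` is of CM type: small exceptional
spaces for every variety `Y`

Let `(H, F, ι)` be an admissible triple in the cohomology `H^m` of a smooth projective variety over
`ℚ̄`, where the abelian field `F` is contained in `ℚ(μ_N)`. The eigenspace of `F ⊆ ℂ` contains a
vector `w ≠ 0` with coordinates in `F`; the eigenspace of the embedding `σ` of `F` contains `σ w`.
If `σ w` is of type `(p, q)` we write `p - q = d σ` (so that `p = (m + d σ) / 2`), and if the
multiple `c σ (2πi)^(m/2) σ w` is in the de Rham cohomology over `ℚ̄` then `c σ (2πi)^(m/2)` is the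
period `P_σ(H)`, up to algebraic numbers (the value of a rational linear form at `σ w` is
algebraic). Conversely a vector `w` with coordinates in `ℚ(μ_N)` and such types `d` and periods `c`
(`IsTyped`) comes from an admissible triple for a field `F ⊆ ℚ(μ_N)`: take for `H` the smallest
rational subspace such that `H ⊗ ℂ` contains `w`, and for `F` the field of definition of the line `ℂ
w`. So the following is the conjecture for the fields `F ⊆ ℚ(μ_N)` (`GrossDeligne`; it is stated
with `N` instead of the conductor of `F`, and `N` is the conductor for the fields of conductor `N`):
for all such `w` there is a function `ε` with `N p(l) = ∑ ε(a) ⟨l a⟩` such that the periods are the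
products of the `Γ(1 - a / N) ^ ε(a l⁻¹)`. (By the theorem of Koblitz and Ogus, which is known, it
does not matter which `ε` is chosen.) Here `l` is the unit modulo `N` by which `σ` acts on the roots
of unity (`Acts`).

**Types and periods.** The cohomology `H(Y)` of a smooth projective variety `Y` over `ℚ̄` consists
of the Betti cohomology `H_B(Y, ℚ)` with the Hodge operator, the multiplication by `p - q` on `H^(p,
q)` (`HodgeSpace`), and the algebraic de Rham cohomology `H_dR(Y/ℚ̄)` with the comparison
isomorphism (`DRBSpace`), see `PeriodSpace`. The periods modulo algebraic numbers are elements of a
vector space over `ℚ`, and it is embedded in the real numbers by a homomorphism `lam : ℂˣ → ℝ` whose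
kernel are the algebraic numbers (`IsLog`); such homomorphisms exist, and everything below is true
for all of them.

**The varieties `X`.** Let `x j` be integral odd functions (`x j (conj φ) = - x j φ`) on the complex
embeddings of CM fields `L j`, `j` in a finite set, for instance CM types. Let `X` be a smooth
projective variety over `ℚ̄` of CM type: `H_B(X, ℂ)` is generated by vectors with types and periods
(`IsOfCMType`). We suppose that for all vectors with types `d` a multiple of `d` is a sum `σ ↦ ∑ m
(j, ψ) * x j (σ ψ)` over the embeddings `ψ` of the fields `L j` (`IsGeneratedBy`). For instance `X`
can be **any** abelian variety isogenous to a product of powers of the abelian varieties of CM types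
`(L j, Φ j)`, or a variety whose cohomology is built from the cohomology of such abelian varieties,
like the Fermat hypersurfaces, or K3 surfaces with complex multiplication. The fields `L j` need not
be abelian.

**The exceptional spaces.** Let `Y` be **any** smooth projective variety over `ℚ̄`, let `T` be the
matrix of the Hodge operator of `Y` in a rational basis, and let `g` be the smallest complex space
of matrices which contains all conjugates `σ⁻¹ T` and the commutators of its elements (`lie`): the
Lie algebra of the Hodge group of `Y`. Let `V` be the space of the rational functions `σ ↦ l (σ⁻¹
T)` on the automorphisms of `ℂ`, where `l` is a linear function which is zero on the commutators of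
elements of `g` (`charSpace`). Let `V'` be the space over `ℚ` generated by the functions `σ ↦ lam (c
σ)`, for all vectors with periods `c` in the cohomology of all powers `Y^s` (`periodSpace`). For a
CM field `E` let `V(E)` be the space of the odd real functions `f` on the complex embeddings of `E`
such that for all embeddings `φ` the function `σ ↦ f (σ φ)` is in `V` (`excSpace`), and similarly
for `V'`.

**The theorem.** Let `Y` be **any** smooth projective variety over `ℚ̄`, with Betti numbers `b_i`.

1. The exceptional spaces are small (`CharactersAreSmall`, `PeriodsAreSmall`): **`dim V + dim [g, g]
   ≤ dim g`**, so that `dim V` is at most the dimension of the center of the Hodge group of `Y`, and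
   `dim V' ≤ ∑ b_i²`; `dim V(E) ≤ dim V` for all CM fields `E`; and there are at most `dim V`
   pairwise unrelated CM fields `E i` with `V(E i) ≠ 0`, more precisely `∑ m i ≤ dim V`, where `m i`
   is a lower bound for the dimensions of the nonzero stable spaces of odd rational functions on the
   embeddings of `E i` (`IsLowerBound`); the same is true for `V'`. (Two fields are unrelated if
   there are no nonzero equivariant maps between their odd functions.)
2. Let `x j` be integral odd functions on the embeddings of CM fields `L j` such that **no nonzero
   vector of the spaces `V(L j)` is a combination of the `x j`** (`ForAllOutside`), and let `X` be
   **any** variety of CM type whose types are generated by the `x j`. Suppose that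
   * the types of a vector of given degree determine its periods on all powers of `X`
     (`TypesDeterminePeriods`), which is known for **all abelian varieties** `X` (Deligne: Hodge
     classes on abelian varieties are absolute);
   * **or** the same for the powers of `Y`, for instance if `Y` is any abelian variety and `X` any
     variety of CM type;
   * **or** `X` is outside of the exceptional spaces `V'(E)` for the periods (`PeriodsOutside`), in
     the same sense.

   Then for **all `r` and `s`**
   * for all subfields `F` of `ℂ`: the types and periods of every vector with coordinates in `F` on
     `X^r × Y^s` are the sums and products of the types and periods of vectors **with coordinates in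
     `F`** on `X^r` and on `Y^s` (`PeriodsOnAllPowers`): all admissible triples on `X^r × Y^s` have
     the types and periods of products of admissible triples on `X^r` and `Y^s`, for fields in the
     same cyclotomic field;
   * for all `N`, **the conjecture of Gross and Deligne is true on `X^r × Y^s` if it is true on
     `X^r` and on `Y^s`, and it is true on all the products `X^r × Y^s` if and only if it is true on
     all the powers `X^r` and on all the powers `Y^s`** (`GrossDeligneOnAllPowers`).

If `X` is an abelian variety of CM type the conjecture is known for all the powers `X^r` (Anderson,
with the theorem of Deligne on Hodge classes). So for **all** abelian varieties `X` of CM type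
outside of the exceptional spaces `V(E)`, which depend only on the Hodge structure of `Y`: **the
conjecture of Gross and Deligne is true on all the `X^r × Y^s` if and only if it is true on all the
powers of `Y`**.

* If the Hodge group of `Y` is semisimple then `g = [g, g]` and `V = 0`: there are no exceptional
  vectors.
* If `E` is a CM field such that the odd functions on its embeddings are irreducible and `[E : ℚ] >
  2 dim V` then `V(E) = 0`: there is no condition for the `X` with complex multiplication by `E`.
* If the odd functions on the embeddings of `E` are absolutely irreducible, the condition for `X`
  with the CM type `x` of `E` is that `x` is not in `V(E)`.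

A vector `v` on the embeddings of a field `E` is a combination of the `x j` (`IsComb`) if it is the
sum of the images of the `x j` under equivariant maps: `v φ = ∑ t φ (j, ψ) * x j ψ` with rational
numbers `t φ (j, ψ)` which are invariant under the automorphisms of `ℂ`, odd in `ψ`, and zero if the
fields `E` and `L j` are unrelated.

(Without the condition a vector over a non-abelian field on `X` and one on `Y`, about which the
conjecture says nothing, can give a vector over an abelian field on `X × Y`: for instance the Hodge
classes on `X × Y` given by common simple factors of the cohomology of `X` and `Y`.)

**Relation.** The result `IndependentFamilies` of the library is about any variety `Z` and powers of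
independent varieties **without** complex multiplication, for which the Hodge conjecture is known;
there the semi-invariant classes on the factors are combinations of classes of cycles. For varieties
of CM type all classes are sums of semi-invariant classes, and the characters of the non-abelian
fields can be combined to characters of abelian fields; the theorem says that this does not happen.
`AbelianType` (library) is the conjecture for the motives of abelian type, and
`ReductionToHodgeClasses` the reduction of the conjecture to Hodge classes. The engines for Hodge
classes and for de Rham-Betti classes are those of `AllPowersWithCM` on MP_0da4e0_ag and
MP_470b79_ag; the new points are the vectors with coordinates in a field `F`, and the descent.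

The proof. Let `w ≠ 0` be a vector with coordinates in `F`, of degree `m`, with types `D` and
periods `C`, on `X^r × Y^s`. Take a basis of `H(X^r)` of homogeneous vectors `e k` with types and
periods, and write `w = ∑ e k ⊗ y k`. The `y k` have the types `D - d k` and the periods `C / c k`
(`kunnethT`). Take a `k` with `y k ≠ 0`, and let `τ` be an automorphism of `ℂ` over `F`. Since `τ w
= w` the functions `D` and `C` (modulo algebraic numbers) are invariant under `τ` (`inv_types`); so
the difference `h` of `d k` and its translate by `τ` is minus the difference for the types of `y k`.
Hence `h` is in `V` (`type_mem_charSpace`), and it is the value of an odd relation between the `x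
j`. If `h ≠ 0` there is a vector `v ≠ 0` on the embeddings of one of the fields `L j` whose
translates are combinations of the translates of `h` (`exists_vector`), so that `v` is in `V(L j)`,
and `v` is a combination of the `x j` (`isRealComb_of`), a contradiction; so `d k` is invariant
(`trans_zero`, `inv_of_types`). The periods `c k` are invariant modulo algebraic numbers, since they
are determined by the types or by the same argument (`inv_of_determined`, `inv_of_periods`). So the
space of the vectors of `H(X^r)` with the types `d k` and the periods `c k` is stable under the
automorphisms of `ℂ` over `F`, and a nonzero vector in this space with the smallest number of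
nonzero coordinates, one of them `1`, has coordinates in `F` (`exists_fixed`); the same is true for
`Y^s` (`exists_typed`). The gamma products for `ε` and `ε'` are multiplied if `ε` and `ε'` are added
(`gammaProduct_add`, `grossDeligne_of`).
-/

set_option autoImplicit false

namespace Pool.Agent.Results.MP_b23d8d_ag.AllPowersWithCM

open Pool.Agent.H855.HG (CharactersAreSmall charactersAreSmall)
open Pool.Agent.H855.DRB (IsLog PeriodsAreSmall exists_isLog periodsAreSmall)
open Pool.Agent.H855.GD

/-- **For every smooth projective variety `Y` over the algebraic numbers and all varieties `X` of CM type outside of the small exceptional
spaces of `Y`: the types and periods of all admissible triples on `X^r × Y^s` are sums and products of those on `X^r` and `Y^s`, and the conjecture of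
Gross and Deligne is true on all the products `X^r × Y^s` if and only if it is true on the powers of `X` and on the powers of `Y`.** -/
theorem result : (∃ lam : ℂˣ → ℝ, IsLog lam) ∧ ∀ lam : ℂˣ → ℝ, IsLog lam →
    ∀ (B : Type) [Fintype B] (Y : PeriodSpace B),
      CharactersAreSmall Y.hodge ∧ PeriodsAreSmall lam Y.drb ∧
        ForAllOutside lam Y
          (fun _ _ X => PeriodsOnAllPowers X Y ∧ GrossDeligneOnAllPowers X Y) :=
  ⟨exists_isLog, fun _ hl _ _ Y => ⟨charactersAreSmall Y.hodge, periodsAreSmall hl Y.drb,
    forAllOutside hl Y⟩⟩

end Pool.Agent.Results.MP_b23d8d_ag.AllPowersWithCM
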