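import Pool.Agent.H367.OS.OFac

/-!
# The Gross-Deligne conjecture in one degree and single pieces of one sequence of cubics

A relation `r` of size `m` is one of the equations `x_i x_j = x_l`, `x_i + x_j = x_l`, `x_i = 1` with
`i, j, l < m`; the relations are numbered, the number of `r` is `ν(r)` (`relNum`). Let `G_m` be the
following polynomial with integral coefficients (`univG ℤ m`). There are variables `x_i` and `z_ij` for
`i, j < m`, a variable `c_r` for every relation `r`, and variables `y_{r,l}` for all relations `r` and
`l < (m + 1) 2 ^ ν(r)`. The equations (`eqnG`) are

  `z_ij - x_i x_j`,  `c_r ^ 2 - c_r`,  `c_r ρ_r`,  `(1 - c_r) y_{r,l}`,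

where `ρ_r` is the linear polynomial `z_ij - x_l`, `x_i + x_j - x_l` or `x_i - 1` of the relation.
`G_m` is the sum of the equations multiplied by further variables `t_e`, one for each equation. It has
degree three. Let `C_m` be the affine cubic hypersurface `G_m = 1` (`cubG R m` over the ring `R`); it is
smooth over the integers.

Let `K` be the field of algebraic numbers. Let `A` be the following semisimple abelian category. The
objects are finite direct sums of pure polarizable objects `(V_dR, V_B, ρ)`: `V_B` is a rational Hodge
structure, `V_dR` a vector space over `K` with a filtration, and `ρ` the comparison `V_dR ⊗ ℂ ≅ V_B ⊗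
ℂ`, which maps the filtration to the Hodge filtration; the morphisms respect everything, and the
polarizations are morphisms. Subobjects of polarizable objects are direct factors (orthogonal
complements). For a separated scheme `X` of finite type over `ℚ` let `D.G w j X = Gr^W_w H^j_c(X_K)`,
an object of `A`; for smooth projective `Y` it is `H^j(Y_K)` if `j = w`, and zero otherwise.

The object `R` is `d`-admissible (`adm d R`) if it is nonzero and pure of weight `d` and there are an
abelian number field `F` with `[F : ℚ] = dim R` and an injective homomorphism from `F` to the
endomorphisms of `R` in `A`. The admissible triples `(H, F, ι)` of the question are the `d`-admissible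
direct factors `R` of `H^d(X)`, with `V_B = H` and `V_dR` spanned by the `ω_σ`. Let `GD R` be the
relation of question Q1 for `R`, all `(F, ι)`, all `ε` and all `λ`. So `Relation adm GD d N` says that
the relation is true for all `d`-admissible direct factors of `N`.

For a smooth projective scheme `V` over `K` let `Q1 d V` be the statement of question Q1 for `V` and
the degree `m = d`. Every `V` is an open and closed subscheme of `Y_K` for a smooth projective scheme
`Y` over `ℚ` (hypothesis `FromQalg`).

**Theorem.** Let `E_m` be the number of the equations, and for `N ∈ ℕ` let `e = (m + 1) N + E_m - 1`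
(`esh m N`).

(1) For every degree `d` question Q1 has a positive answer for all smooth projective varieties over `ℚ̄`
if and only if for infinitely many `m` the relation is true for all admissible direct factors of the
single objects `Gr^W_{d+2e} H^{d+2e+1}_c((C_m)_K)(e)` of weight `d`, for all `N`. The first open case is
`d = 2`.

(2) The hypersurfaces `C_m` decide the statement for the pieces of the cohomology (`DecidesPieces`).
For every affine scheme `Spec B` of finite type over `ℚ` and all large `m` there is an `N` such that
for `0 ≤ w ≤ 2 m + 1` and all `j` the statement for `Gr^W_w H^j_c(Spec B)` is equivalent to the one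
for `Gr^W_{w+2e} H^{j+2e+1}_c(C_m)`. For every smooth projective `Y` over `ℚ`, every `d` and all large
`m` there is an `e'` such that for all `i ≤ d` the statement for `h^i(Y)` is equivalent to the one for
`Gr^W_{i+2e'} H^{i+2e'+1}_c(C_m)`. The statements for the pieces of one `C_m` imply those for all
pieces of a given separated scheme `X` of finite type. (In all these statements there are the same
Tate twists on both sides, up to the shift by `e`.)

(3) For `d = 1` this is known (Anderson): the relation is true for all admissible direct factors of the
objects `Gr^W_{2e+1} H^{2e+2}_c((C_m)_K)(e)`, for infinitely many `m` and all `N`.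

(4) `G_m` has integral coefficients and degree at most three, and `C_m` is smooth over all rings.

The hypotheses on the objects of `A` are standard (`IsMot`): exact sequences, affine bundles, disjoint
unions, the cohomology of affine spaces, the weights of `H^j_c(X)` are between `0` and `2 dim X`,
monomorphisms split, `Gr^W_w H^j_c(X)` is a direct factor of `h^w(Y)` for some smooth projective `Y`
(it is a subquotient, by the weight spectral sequence), and every smooth projective scheme has an
affine bundle whose total space is affine (Jouanolou).

Idea of the proof. The projection of `C_m` to the affine space with the coordinates `x, z, c, y` is an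
affine bundle over the complement of the zero set `W_m` of the equations. The scheme `W_m` is the
disjoint union, over all sets `s` of relations (`c_r = 1` for `r ∈ s` and `c_r = 0` for the others), of
the products `X_s × 𝔸 ^ ((m + 1) N(s))`, where `X_s` is the affine scheme defined by the relations in
`s` and `N(s) = ∑_{r ∈ s} 2 ^ ν(r)`. The numbers `N(s)` are different, and the weights of the
cohomology of `X_s` are between `0` and `2 m`. So the part of weight `w + 2 (m + 1) N(s)`,
`0 ≤ w ≤ 2 m + 1`, of the cohomology of `W_m` is the twist of the part of weight `w` of the cohomology of
`X_s`, and it is different from the weight of the cohomology of the affine space. Every affine scheme of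
finite type over a prime field is an `X_s`, for all large `m`. The pieces of the cohomology of an
arbitrary scheme are direct factors of those of a disjoint union of affine schemes.

The universal system of relations is the one of helper854 (`Pool.Agent.H854.SQ`).
-/

set_option autoImplicit false

open CategoryTheory CategoryTheory.Limits AlgebraicGeometry Pool.Agent.Y116.UV Pool.Agent.Z125.UN
  Pool.Agent.Q193.LT Pool.Agent.H854.SQ Pool.Agent.H367.OS

universe v u



namespace Pool.Agent.Results.MP_b23d8d_ag.PiecesOfOneSequence

/-- The relation `GD` is true for all `d`-admissible direct factors of `N`. -/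
def Relation {A : Type u} [Category.{v} A] (adm : ℕ → A → Prop) (GD : A → Prop) (d : ℕ) (N : A) :
    Prop :=
  AllFactors (fun R => adm d R → GD R) N

/-- **The Gross-Deligne conjecture and single pieces of one sequence of cubic hypersurfaces over the
integers.** See the explanations above. -/
theorem result {K : Type} [Field K] [Algebra ℚ K] [IsAlgClosure ℚ K]
    {A : Type u} [Category.{v} A] [Abelian A] {D : Pieces ℚ A} (h : IsMot D) {adm : ℕ → A → Prop}
    {GD : A → Prop} {Q1 : ℕ → Sch K → Prop}
    (describes : ∀ d : ℕ, FromQalg K (Q1 d) fun Y => Relation adm GD d (D.G d d Y))
    (anderson : ∀ Y : Sch ℚ, SmoothProj Y → Relation adm GD 1 (D.G 1 1 Y)) :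
    (∀ d : ℕ, (∀ V : Sch K, SmoothProj V → Q1 d V) ↔
      ∃ᶠ m in Filter.atTop, ∀ N : ℕ, Relation adm GD d ((D.tw (esh m N)).obj
        (D.G (d + 2 * esh m N) (d + 2 * esh m N + 1) (cubG ℚ m)))) ∧
    (∀ d : ℕ, DecidesPieces D (Relation adm GD d)) ∧
    (∃ᶠ m in Filter.atTop, ∀ N : ℕ, Relation adm GD 1 ((D.tw (esh m N)).obj
      (D.G (1 + 2 * esh m N) (1 + 2 * esh m N + 1) (cubG ℚ m)))) ∧
    ∀ m : ℕ, (univG ℤ m).totalDegree ≤ 3 ∧
      ∀ (R : Type) [CommRing R], MvPolynomial.map (Int.castRingHom R) (univG ℤ m) = univG R m ∧
        Smooth (cubG R m).hom := by
  have hf : ∀ d, FactorClosed (Relation adm GD d) := fun d => allFactors_closed _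
  have hd := fun d => decides_pieces isPrimeField_rat h (hf d)
  refine ⟨fun d => (describes d).all.trans ((hd d).degree h.pieces (FactorClosed.isoInv (hf d)) d), hd, ?_,
    cubG_facts⟩
  have h1 := ((hd 1).degree h.pieces (FactorClosed.isoInv (hf 1)) 1).mp (by simpa using anderson)
  simpa using h1

end Pool.Agent.Results.MP_b23d8d_ag.PiecesOfOneSequence
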